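import Mathlib.Combinatorics.SimpleGraph.Finsubgraph

/-!
# Finite subsets of large chromatic number in an uncountably chromatic induced subgraph
(de Bruijn and Erdős)
-/

namespace Pool.Agent.H95EH

open Set

universe u

/-- If `G[W]` has no proper colouring with countably many colours, then for every `k` there is a
finite set `F` inside `W` such that `G[F]` has no proper colouring with `k` colours. -/
theorem exists_finset_not_colorable {V : Type u} (G : SimpleGraph V) (W : Set V)
    (hW : ¬ ∃ c : V → ℕ, ∀ y ∈ W, ∀ z ∈ W, G.Adj y z → c y ≠ c z) (k : ℕ) :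
    ∃ F : Finset V, (↑F : Set V) ⊆ W ∧
      ¬ ∃ c : V → Fin k, ∀ y ∈ F, ∀ z ∈ F, G.Adj y z → c y ≠ c z := by
  classical
  by_contra hcon
  push Not at hcon
  have h1 : Nonempty (G.comap (Subtype.val : W → V) →g (⊤ : SimpleGraph (Fin k))) := by
    refine SimpleGraph.nonempty_hom_of_forall_finite_subgraph_hom ?_
    intro S hS
    have hfin : (Subtype.val '' S.verts : Set V).Finite := hS.image _
    have h2 := hcon hfin.toFinset (by
      intro y hy
      rw [Set.Finite.coe_toFinset] at hy
      obtain ⟨z, _, rfl⟩ := hy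
      exact z.2)
    refine ⟨fun v => h2.choose v.1.1, ?_⟩
    intro a b hab
    rw [SimpleGraph.top_adj]
    have hmem : ∀ v : S.verts, v.1.1 ∈ hfin.toFinset := by
      intro v
      rw [Set.Finite.mem_toFinset]
      exact ⟨v.1, v.2, rfl⟩
    exact h2.choose_spec _ (hmem a) _ (hmem b) (S.adj_sub hab)
  obtain ⟨f⟩ := h1
  apply hW
  refine ⟨fun y => if h : y ∈ W then (f ⟨y, h⟩ : ℕ) else 0, ?_⟩
  intro y hy z hz hyz
  simp only [hy, hz, dif_pos]
  intro he
  have h3 : (⊤ : SimpleGraph (Fin k)).Adj (f ⟨y, hy⟩) (f ⟨z, hz⟩) := f.map_rel hyz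
  exact (SimpleGraph.top_adj _ _).1 h3 (Fin.ext he)

end Pool.Agent.H95EH
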