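import Pool.Agent.H52EH.Color
import Pool.Agent.H60EH.Levels

/-!
# Unions of at most continuum many parts; cofinality of the least size of an example
(helper73, board row 1328)
-/

namespace Pool.Agent.H95EH

open Set Cardinal Pool.Agent.H52EH

universe u

/-- If the vertex set is a union of at most continuum many parts each of which induces a countable
union of triangle-free graphs, then the graph is such a union. -/
theorem parts {V I : Type u} (G : SimpleGraph V) (f : V → I) (hI : #I ≤ continuum.{u})
    (h : ∀ i, TriColorable (G.comap (Subtype.val : {x // f x = i} → V))) : TriColorable G := by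
  classical
  obtain ⟨d, hd1, hd2⟩ := Pool.Agent.H60EH.continuum_coloring hI
  choose c hc1 hc2 using h
  let e : V → V → ℕ := fun x y => if h : f y = f x then 2 * c (f x) ⟨x, rfl⟩ ⟨y, h⟩
    else 2 * d (f x) (f y) + 1
  have he : ∀ (i : I) (x y : V) (hx : f x = i) (hy : f y = i), e x y = 2 * c i ⟨x, hx⟩ ⟨y, hy⟩ := by
    rintro _ x y rfl hy
    simp only [e, hy, dif_pos]
  have ho : ∀ x y, f x ≠ f y → e x y = 2 * d (f x) (f y) + 1 := by
    intro x y hxy
    simp only [e, Ne.symm hxy, dif_neg, not_false_iff]
  refine ⟨e, ?_, ?_⟩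
  · intro x y
    by_cases hxy : f x = f y
    · rw [he (f y) x y hxy rfl, he (f y) y x rfl hxy, hc1]
    · rw [ho x y hxy, ho y x (Ne.symm hxy), hd1]
  · rintro x y z hxy hyz hxz ⟨h1, h2⟩
    by_cases a : f x = f y
    · by_cases b : f y = f z
      · rw [he (f y) x y a rfl, he (f y) y z rfl b.symm] at h1
        rw [he (f y) y z rfl b.symm, he (f y) x z a b.symm] at h2
        exact hc2 (f y) ⟨x, a⟩ ⟨y, rfl⟩ ⟨z, b.symm⟩ hxy hyz hxz ⟨by omega, by omega⟩
      · rw [he (f y) x y a rfl, ho y z b] at h1
        omega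
    · by_cases b : f y = f z
      · rw [ho x y a, he (f y) y z rfl b.symm] at h1
        omega
      · by_cases g : f x = f z
        · rw [ho y z b, he (f z) x z g rfl] at h2
          omega
        · rw [ho x y a, ho y z b] at h1
          rw [ho y z b, ho x z g] at h2
          exact hd2 (f x) (f y) (f z) a b g ⟨by omega, by omega⟩

/-- The least size of a `K₄`-free graph that is not a countable union of triangle-free graphs has
cofinality more than continuum. -/
theorem cof_step {κ : Cardinal.{u}} (hκ : ℵ₀ ≤ κ) (hcof : κ.ord.cof ≤ continuum.{u})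
    (h : ∀ V : Type u, #V < κ → ∀ G : SimpleGraph V, G.CliqueFree 4 → TriColorable G) :
    ∀ V : Type u, #V = κ → ∀ G : SimpleGraph V, G.CliqueFree 4 → TriColorable G := by
  classical
  intro V hV G hG
  let ι : Type u := κ.ord.ToType
  have hι : #ι = #V := by simp [ι, hV]
  obtain ⟨e⟩ : Nonempty (V ≃ ι) := Cardinal.eq.1 hι.symm
  obtain ⟨S, hS1, hS2⟩ := Order.exists_cof_eq (α := ι)
  have hS3 : #S ≤ continuum.{u} := by
    rw [hS2]
    simpa [ι] using hcof
  have hex : ∀ x : V, ∃ s : S, e x ≤ s.1 := by
    intro x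
    obtain ⟨s, hs, hs'⟩ := hS1 (e x)
    exact ⟨⟨s, hs⟩, hs'⟩
  choose f hf using hex
  refine parts G f hS3 ?_
  intro s
  refine h _ ?_ _ ?_
  · have h1 : #{x // f x = s} ≤ #(Iic s.1) := by
      refine mk_le_of_injective (f := fun x => ⟨e x.1, ?_⟩) ?_
      · have h5 := hf x.1
        have h6 : f x.1 = s := x.2
        rw [h6] at h5
        exact h5
      · intro x y hxy
        exact Subtype.ext (e.injective (congrArg Subtype.val hxy))
    refine h1.trans_lt ?_
    have h2 : #(Iio s.1) < κ := by simpa [ι] using mk_Iio_lt s.1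
    have h3 : #(Iic s.1) ≤ #(Iio s.1) + 1 := by
      rw [← Iio_insert]
      exact mk_insert_le
    refine h3.trans_lt (add_lt_of_lt hκ h2 ?_)
    exact (one_lt_aleph0).trans_le hκ
  · exact hG.comap ⟨(SimpleGraph.Embedding.comap ⟨Subtype.val, Subtype.val_injective⟩ G).toCopy⟩

end Pool.Agent.H95EH
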